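import Mathlib
import Pool.Agent.Q7.TZ.Dich
import Pool.Agent.Q7.DB.RealArt

/-!
# Double zeros at the central point
-/

set_option autoImplicit false
set_option linter.unusedSectionVars false

namespace Pool.Agent.Q7.CV

open Pool.Agent.H302R2 Pool.Agent.H541R3.ART Pool.Agent.W446.AS Pool.Agent.Q7.TZ Pool.Agent.Q7.DB
  Pool.Agent.Y788 Pool.Agent.Y788.V ComplexConjugate

section

variable {G : Type} [Group G] [Finite G]

/-- The determinant is trivial. -/
lemma det_central {θ : G → ℂ} (hθ : IsHeilbronn θ) (h1 : θ 1 = 2) (hreal : ∀ g, θ g⁻¹ = θ g)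
    (hev : ∀ g : G, ∃ k : ℕ, ∑ᶠ h : Subgroup.zpowers g, θ h = 2 * k * Nat.card (Subgroup.zpowers g))
    (g : G) : dd θ g = 1 := by
  classical
  obtain ⟨a, b, ha, hb, hp, hs, hpow⟩ := hθ.two_eig h1 g
  have ha0 : a ≠ 0 := by rw [← norm_ne_zero_iff, ha]; norm_num
  have hb0 : b ≠ 0 := by rw [← norm_ne_zero_iff, hb]; norm_num
  have h2 := hpow (-1)
  rw [zpow_neg_one, zpow_neg_one, zpow_neg_one, hreal, hs] at h2
  have h3 : (a + b) * (a * b - 1) = 0 := by
    field_simp at h2
    linear_combination h2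
  rw [hp]
  rcases mul_eq_zero.mp h3 with h4 | h4
  swap
  · linear_combination h4
  have hba : b = -a := by linear_combination h4
  have h5 := hpow (-2)
  have h6 := hpow 2
  have h7 : θ (g ^ (-2 : ℤ)) = θ (g ^ (2 : ℤ)) := by rw [zpow_neg, hreal]
  rw [h5, h6, hba] at h7
  have h8 : a ^ (-2 : ℤ) * a ^ (2 : ℤ) = 1 := by
    rw [← zpow_add₀ ha0]; simp
  have h9 : (-a) ^ (-2 : ℤ) = a ^ (-2 : ℤ) := Even.neg_zpow (by decide) a
  have h10 : (-a) ^ (2 : ℤ) = a ^ (2 : ℤ) := Even.neg_zpow (by decide) a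
  rw [h9, h10] at h7
  have h11 : a ^ (-2 : ℤ) = a ^ (2 : ℤ) := by linear_combination h7 / 2
  rw [h11] at h8
  have h12 : a ^ (2 : ℤ) = a ^ 2 := by norm_cast
  rw [h12] at h8
  have h13 : (a ^ 2 - 1) * (a ^ 2 + 1) = 0 := by linear_combination h8
  rcases mul_eq_zero.mp h13 with h14 | h14
  swap
  · rw [hba]; linear_combination -h14
  -- the case of the eigenvalues `1` and `-1`
  exfalso
  have hvals : ∀ i : ℕ, θ (g ^ i) = 1 + (-1) ^ i := by
    intro i
    have h15 := hpow (i : ℤ)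
    rw [zpow_natCast, zpow_natCast, zpow_natCast, hba] at h15
    rw [h15]
    have h16 : (a - 1) * (a + 1) = 0 := by linear_combination h14
    rcases mul_eq_zero.mp h16 with h | h
    · rw [show a = 1 by linear_combination h]; simp
    · rw [show a = -1 by linear_combination h]; simp; ring
  obtain ⟨k, hk⟩ := hev g
  have hfin : IsOfFinOrder g := isOfFinOrder_of_finite g
  have hN : Nat.card (Subgroup.zpowers g) = orderOf g := Nat.card_zpowers g
  have hord : 0 < orderOf g := orderOf_pos g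
  have hevN : (-1 : ℂ) ^ orderOf g = 1 := by
    have h17 := hvals (orderOf g)
    rw [pow_orderOf_eq_one, h1] at h17
    linear_combination -h17
  have : Fintype (Subgroup.zpowers g) := Fintype.ofFinite _
  rw [finsum_eq_sum_of_fintype, ← Equiv.sum_comp (finEquivZPowers hfin)] at hk
  have h18 : ∑ i : Fin (orderOf g), θ ((finEquivZPowers hfin i : Subgroup.zpowers g) : G)
      = ∑ i ∈ Finset.range (orderOf g), (1 + (-1 : ℂ) ^ i) := by
    rw [← Fin.sum_univ_eq_sum_range]
    refine Finset.sum_congr rfl fun i _ => ?_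
    rw [finEquivZPowers_apply]
    exact hvals i
  rw [h18, Finset.sum_add_distrib, Finset.sum_const, Finset.card_range, hN] at hk
  have h19 : ∑ i ∈ Finset.range (orderOf g), (-1 : ℂ) ^ i = 0 := by
    have h20 := geom_sum_mul (-1 : ℂ) (orderOf g)
    rw [hevN, sub_self] at h20
    rcases mul_eq_zero.mp h20 with h | h
    · exact h
    · norm_num at h
  rw [h19, add_zero, nsmul_eq_mul, mul_one] at hk
  have hne : (orderOf g : ℂ) ≠ 0 := by exact_mod_cast hord.ne'
  have h21 : (1 : ℂ) = 2 * k := by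
    apply mul_right_cancel₀ hne
    rw [one_mul]
    exact hk
  have h22 : (1 : ℕ) = 2 * k := by exact_mod_cast h21
  omega

/-- evenness of the orders of the zeta functions -/
lemma even_zeta {s₀ : ℂ} (A : ArtinData G s₀)
    (h : ∀ H : Subgroup G, ∃ m : ℕ, meromorphicOrderAt (A.Lin H 1) s₀ = ((2 * m : ℕ) : WithTop ℤ))
    (H : Subgroup G) : ∃ k : ℕ, ∑ᶠ x : H, (theta A.ord : G → ℂ) x = 2 * k * Nat.card H := by
  classical
  obtain ⟨k, hk⟩ := h H
  choose! m hm using fun χ (hχ : χ ∈ Irr G) => exists_mult hχ H 1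
  have h1 := A.order_Lin H 1 m hm
  have h2 := theta_mult A.ord H 1 m hm
  rw [hk] at h1
  have h3 : (∑ χ ∈ irrF G, (m χ : ℤ) * A.ord χ : ℤ) = ((2 * k : ℕ) : ℤ) := by
    have : (((2 * k : ℕ) : ℤ) : WithTop ℤ)
        = ((∑ χ ∈ irrF G, (m χ : ℤ) * A.ord χ : ℤ) : WithTop ℤ) := by
      rw [← h1]; rfl
    exact (WithTop.coe_injective this).symm
  rw [h3] at h2
  refine ⟨k, ?_⟩
  have h4 : ∀ x : H, (theta A.ord : G → ℂ) x * ((((1 : H →* ℂˣ) x)⁻¹ : ℂˣ) : ℂ)
      = (theta A.ord : G → ℂ) x := by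
    intro x
    rw [MonoidHom.one_apply, inv_one, Units.val_one, mul_one]
  rw [← finsum_congr h4, h2]
  push_cast
  ring

/-- symplectic characters have even degree at least two: they are not linear -/
lemma not_linear_of_real_ne {χ : G → ℂ} (ε : G → ℂ) (h : ∀ g, χ g = ε g * χ 1)
    (hε : ∀ g, ε g = 1 ∨ ε g = -1) (hχ : χ ∈ Irr G) :
    χ 1 = 1 ∧ ∀ g, χ g ^ 2 = 1 := by
  classical
  have : Fintype G := Fintype.ofFinite G
  have hG : (Nat.card G : ℂ) ≠ 0 := by exact_mod_cast Nat.card_pos.ne'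
  obtain ⟨d, hd0, hd⟩ := irr_deg_pos hχ
  have h2 := pair_self hχ
  have h3 : ∀ g, χ g * χ g⁻¹ = χ 1 ^ 2 := by
    intro g
    have h4 : χ g⁻¹ = χ g := by
      rw [heilbronn_star (irr_heilbronn hχ) g, h g, hd]
      rcases hε g with h5 | h5 <;> rw [h5] <;> simp
    rw [h4, h g]
    rcases hε g with h5 | h5 <;> rw [h5] <;> ring
  rw [Finset.sum_congr rfl (fun g _ => h3 g), Finset.sum_const, Finset.card_univ, nsmul_eq_mul,
    ← Nat.card_eq_fintype_card] at h2
  have h4 : χ 1 ^ 2 = 1 := by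
    apply mul_left_cancel₀ hG
    rw [h2, mul_one]
  have h5 : χ 1 = 1 := by
    rw [hd] at h4 ⊢
    have : (d ^ 2 : ℕ) = 1 := by exact_mod_cast h4
    have h6 : d = 1 := by
      rcases Nat.eq_or_lt_of_le (show 1 ≤ d from hd0) with h | h
      · exact h.symm
      · nlinarith
    rw [h6]; simp
  refine ⟨h5, fun g => ?_⟩
  rw [h g, h5]
  rcases hε g with h6 | h6 <;> rw [h6] <;> norm_num

/-- the sum of the degrees -/
lemma deg_sum (n : (G → ℂ) → ℤ) (h1 : (theta n : G → ℂ) 1 = 2) (S : Finset (G → ℂ))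
    (hS : S ⊆ irrF G) (h0 : ∀ χ ∈ Irr G, χ ∉ S → n χ = 0) : ∑ χ ∈ S, (n χ : ℂ) * χ 1 = 2 := by
  classical
  rw [← h1, theta]
  apply Finset.sum_subset hS
  intro χ hχ hχS
  rw [h0 χ (mem_irrF.mp hχ) hχS]
  simp

theorem central_double {s₀ : ℂ} (hs : conj s₀ = s₀) (A : ArtinData G s₀) (hA : Reflects A)
    (hev : ∀ H : Subgroup G, ∃ m : ℕ,
      meromorphicOrderAt (A.Lin H 1) s₀ = ((2 * m : ℕ) : WithTop ℤ))
    (h2 : meromorphicOrderAt (A.Lin ⊥ 1) s₀ = ((2 : ℕ) : WithTop ℤ)) :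
    ((∃ μ : G →* ℂˣ, μ * μ = 1 ∧ A.ord (fun g => ((μ g : ℂˣ) : ℂ)) = 2 ∧
        (fun g => ((μ g : ℂˣ) : ℂ)) ∈ Irr G ∧
        ∀ χ ∈ Irr G, χ ≠ (fun g => ((μ g : ℂˣ) : ℂ)) → A.ord χ = 0) ∨
      (∃ χ₀ ∈ Irr G, Sy χ₀ ∧ A.ord χ₀ = 1 ∧ ∃ N, NegPart A.ord N 2 ∧
        ∀ χ ∈ Irr G, χ ≠ χ₀ → χ ∉ N → A.ord χ = 0) ∨
      (∃ χ₀ ∈ Irr G, (∃ g, χ₀ g⁻¹ ≠ χ₀ g) ∧ A.ord χ₀ = 1 ∧ A.ord (fun g => χ₀ g⁻¹) = 1 ∧
        ∃ N, NegPart A.ord N 1 ∧
          ∀ χ ∈ Irr G, χ ≠ χ₀ → χ ≠ (fun g => χ₀ g⁻¹) → χ ∉ N → A.ord χ = 0)) ∧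
    (∀ t : G, (∀ χ ∈ Irr G, A.ord χ ≠ 0 → χ (t * t) = χ 1) →
      ∃ ε : ℂ, (ε = 1 ∨ ε = -1) ∧ ∀ χ ∈ Irr G, A.ord χ ≠ 0 → χ t = ε * χ 1) := by
  classical
  have hθ := A.isHeilbronn
  have h1 : (theta A.ord : G → ℂ) 1 = 2 := by
    rw [A.theta_one h2]; simp
  have hd : ∀ g : G, dd (theta A.ord) g = 1 :=
    det_central hθ h1 (theta_real hs hA) (fun g => even_zeta A hev _)
  constructor
  · rcases shape_one A.ord hθ h1 hd with ⟨χ₀, hχ₀, e1, e2, e3, e4⟩ | h | h
    · left
      obtain ⟨μ, hμ⟩ := (irr_heilbronn hχ₀).deg_one e1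
      have hμ' : χ₀ = fun g => ((μ g : ℂˣ) : ℂ) := funext hμ
      refine ⟨μ, ?_, by rw [← hμ']; exact e3, by rw [← hμ']; exact hχ₀, fun χ hχ hne => ?_⟩
      · ext g
        have h3 := e2 g
        rw [hμ, hμ, map_inv, Units.val_inv_eq_inv_val] at h3
        have h9 : ((μ g : ℂˣ) : ℂ) ≠ 0 := (μ g).ne_zero
        rw [MonoidHom.mul_apply, Units.val_mul, MonoidHom.one_apply, Units.val_one]
        field_simp at h3
        linear_combination -h3
      · apply e4 χ hχ
        rw [hμ']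
        exact hne
    · right; left; exact h
    · right; right; exact h
  · intro t ht
    obtain ⟨ε, hε, -, h3⟩ := invol_mod hθ (theta_virt A.ord) h1 hd (t := t) (by
      rw [mem_kerS]
      intro χ hχ hp
      apply ht χ hχ
      rw [pr_theta A.ord hχ] at hp
      exact_mod_cast hp)
    refine ⟨(ε : ℂ), ?_, fun χ hχ hne => h3 χ hχ ?_⟩
    · rcases hε with h | h
      · left; rw [h]; simp
      · right; rw [h]; simp
    · rw [pr_theta A.ord hχ]
      exact_mod_cast hne

/-- groups generated by involutions -/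
lemma scal_of_gen {n : (G → ℂ) → ℤ} (hgen : Subgroup.closure {t : G | t * t = 1} = ⊤)
    (hinv : ∀ t : G, t * t = 1 → ∃ ε : ℂ, (ε = 1 ∨ ε = -1) ∧
      ∀ χ ∈ Irr G, n χ ≠ 0 → χ t = ε * χ 1) {χ : G → ℂ} (hχ : χ ∈ Irr G) (hn : n χ ≠ 0) :
    χ 1 = 1 ∧ (∀ g, χ g⁻¹ = χ g) ∧ ∑ᶠ g, χ (g ^ 2) = (Nat.card G : ℂ) := by
  classical
  have : Fintype G := Fintype.ofFinite G
  obtain ⟨m, ρ, hρ, rfl⟩ := exists_rep hχ
  have hall : ∀ g : G, (ρ g = 1 ∨ ∀ v, ρ g v = -v) := by
    intro g
    have hg : g ∈ Subgroup.closure {t : G | t * t = 1} := by rw [hgen]; exact Subgroup.mem_top g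
    induction hg using Subgroup.closure_induction with
    | mem t ht =>
      obtain ⟨ε, hε, h3⟩ := hinv t ht
      have h4 := h3 _ hχ hn
      rcases hε with h | h
      · left
        apply rep_triv ρ
        rw [h4, h, one_mul]
      · right
        intro v
        have hm : ‖ρ.character t‖ = m := by
          rw [h4, h, Representation.char_one, Module.finrank_fin_fun]
          simp
        obtain ⟨c, hc⟩ := rep_scal ρ hm
        have hm0 : (m : ℂ) ≠ 0 := by
          have := hρ.1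
          have h5 : 0 < m := by
            rcases Nat.eq_zero_or_pos m with h0 | h0
            · subst h0
              exact absurd this (not_nontrivial_iff_subsingleton.mpr inferInstance)
            · exact h0
          exact_mod_cast h5.ne'
        have h6 : ρ.character t = c * m := by
          change LinearMap.trace ℂ _ (ρ t) = _
          rw [hc, map_smul, smul_eq_mul, LinearMap.trace_one, Module.finrank_fin_fun]
        rw [h4, h, Representation.char_one, Module.finrank_fin_fun] at h6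
        have h7 : c = -1 := by
          have : (c + 1) * (m : ℂ) = 0 := by linear_combination -h6
          have := (mul_eq_zero.mp this).resolve_right hm0
          linear_combination this
        rw [hc, h7, LinearMap.smul_apply, neg_smul, one_smul]
        rfl
    | one => left; exact map_one ρ
    | mul a b _ _ ha hb =>
      rcases ha with ha | ha <;> rcases hb with hb | hb
      · left; rw [map_mul, ha, hb, one_mul]
      · right; intro v; rw [map_mul, Module.End.mul_apply, hb, ha]; rfl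
      · right; intro v; rw [map_mul, Module.End.mul_apply, hb, Module.End.one_apply, ha]
      · left
        refine LinearMap.ext fun v => ?_
        rw [map_mul, Module.End.mul_apply, hb, ha, neg_neg]
        rfl
    | inv a _ ha =>
      have h5 : ∀ v, ρ a⁻¹ (ρ a v) = v := by
        intro v
        rw [← Module.End.mul_apply, ← map_mul, inv_mul_cancel, map_one, Module.End.one_apply]
      rcases ha with ha | ha
      · left
        refine LinearMap.ext fun v => ?_
        have := h5 v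
        rw [ha] at this
        exact this
      · right
        intro v
        have := h5 (-v)
        rw [ha, neg_neg] at this
        exact this
  have hneg : ∀ g : G, (∀ v, ρ g v = -v) → ρ.character g = -1 * ρ.character 1 := by
    intro g hg
    have h5 : ρ g = (-1 : ℂ) • ρ 1 := by
      refine LinearMap.ext fun v => ?_
      rw [hg, map_one, LinearMap.smul_apply, neg_smul, one_smul]
      rfl
    change LinearMap.trace ℂ _ (ρ g) = -1 * LinearMap.trace ℂ _ (ρ 1)
    rw [h5, map_smul, smul_eq_mul]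
  have hε : ∀ g : G, ∃ ε : ℂ, (ε = 1 ∨ ε = -1) ∧ ρ.character g = ε * ρ.character 1 := by
    intro g
    rcases hall g with h | h
    · refine ⟨1, Or.inl rfl, ?_⟩
      rw [one_mul]
      change LinearMap.trace ℂ _ (ρ g) = LinearMap.trace ℂ _ (ρ 1)
      rw [h, map_one ρ]
    · exact ⟨-1, Or.inr rfl, hneg g h⟩
  choose ε hε1 hε2 using hε
  obtain ⟨h5, h6⟩ := not_linear_of_real_ne ε hε2 hε1 hχ
  refine ⟨h5, fun g => ?_, ?_⟩
  · rw [heilbronn_star (irr_heilbronn hχ) g, hε2 g, h5]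
    rcases hε1 g with h | h <;> rw [h] <;> simp
  · rw [finsum_eq_sum_of_fintype]
    have h7 : ∀ g : G, ρ.character (g ^ 2) = 1 := by
      intro g
      have h8 : ρ (g ^ 2) = 1 := by
        rw [pow_two, map_mul]
        rcases hall g with h | h
        · rw [h, one_mul]
        · refine LinearMap.ext fun v => ?_
          rw [Module.End.mul_apply, h, h, neg_neg]
          rfl
      change LinearMap.trace ℂ _ (ρ (g ^ 2)) = 1
      rw [h8, ← map_one ρ]
      exact h5
    rw [Finset.sum_congr rfl (fun g _ => h7 g), Finset.sum_const, Finset.card_univ, nsmul_eq_mul,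
      mul_one, ← Nat.card_eq_fintype_card]

end

end Pool.Agent.Q7.CV
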