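import Mathlib
import Pool.Agent.H302R2.SymFinal
import Pool.Agent.Q7.DB.RealArt
import Pool.Agent.Y788.VFin

/-!
# Alternating groups: even multiplicities of quadratic characters
-/

set_option autoImplicit false
set_option linter.unusedSectionVars false

namespace Pool.Agent.Q7.CV

open Pool.Agent.H302R2 Equiv Equiv.Perm

section even

variable {G : Type} [Group G] [Finite G]

/-- the multiplicities of quadratic linear characters of subgroups are even -/
def EvenQ {G : Type} [Group G] (θ : G → ℂ) : Prop :=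
  ∀ (H : Subgroup G) (ψ : H →* ℂˣ), (∀ h, ψ h * ψ h = 1) →
    ∃ k : ℕ, ∑ᶠ h : H, θ h * (((ψ h)⁻¹ : ℂˣ) : ℂ) = 2 * k * Nat.card H

lemma EvenQ.hom {θ : G → ℂ} (hθ : EvenQ θ) {E : Type} [Group E] [Fintype E]
    (φ : E →* G) (χ : E →* ℂˣ) (hχ2 : ∀ e, χ e * χ e = 1) :
    ∃ k : ℕ, ∑ e : E, θ (φ e) * (((χ e)⁻¹ : ℂˣ) : ℂ) = 2 * k * (Nat.card E : ℂ) := by
  classical
  by_cases hker : ∀ k ∈ φ.ker, χ k = 1
  · have : Fintype φ.range := Fintype.ofFinite _
    let χ' : φ.range →* ℂˣ :=
      (QuotientGroup.lift φ.ker χ hker).comp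
        (QuotientGroup.quotientKerEquivRange φ).symm.toMonoidHom
    have hχ' : ∀ e : E, χ' (φ.rangeRestrict e) = χ e := by
      intro e
      have : (QuotientGroup.quotientKerEquivRange φ).symm (φ.rangeRestrict e)
          = (QuotientGroup.mk e : E ⧸ φ.ker) := by
        rw [MulEquiv.symm_apply_eq]; rfl
      simp only [χ', MonoidHom.coe_comp, MulEquiv.coe_toMonoidHom, Function.comp_apply, this]
      rfl
    obtain ⟨k, hk⟩ := hθ φ.range χ' (by
      intro h
      obtain ⟨e, rfl⟩ := φ.rangeRestrict_surjective h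
      rw [hχ', hχ2])
    refine ⟨k, ?_⟩
    rw [finsum_eq_sum_of_fintype] at hk
    have h1 := sum_comp_surj φ.rangeRestrict φ.rangeRestrict_surjective
      (fun h : φ.range => θ h * (((χ' h)⁻¹ : ℂˣ) : ℂ))
    simp only [hχ', MonoidHom.coe_rangeRestrict] at h1
    rw [h1, hk, MonoidHom.ker_rangeRestrict]
    have h2 : Nat.card E = Nat.card φ.ker * Nat.card φ.range := by
      rw [← Nat.card_congr (QuotientGroup.quotientKerEquivRange φ).toEquiv, mul_comm]
      exact Subgroup.card_eq_card_quotient_mul_card_subgroup _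
    rw [h2]; push_cast; ring
  · push Not at hker
    obtain ⟨k, hk, hχk⟩ := hker
    refine ⟨0, ?_⟩
    have h1 : ∑ e : E, θ (φ e) * (((χ e)⁻¹ : ℂˣ) : ℂ)
        = ∑ e : E, θ (φ (e * k)) * (((χ (e * k))⁻¹ : ℂˣ) : ℂ) :=
      (Equiv.sum_comp (Equiv.mulRight k)
        (fun e => θ (φ e) * (((χ e)⁻¹ : ℂˣ) : ℂ))).symm
    have h2 : ∑ e : E, θ (φ (e * k)) * (((χ (e * k))⁻¹ : ℂˣ) : ℂ)
        = (((χ k)⁻¹ : ℂˣ) : ℂ) * ∑ e : E, θ (φ e) * (((χ e)⁻¹ : ℂˣ) : ℂ) := by
      rw [Finset.mul_sum]
      refine Finset.sum_congr rfl fun e _ => ?_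
      rw [map_mul, map_mul, MonoidHom.mem_ker.mp hk, mul_one, mul_inv_rev]
      push_cast; ring
    rw [h2] at h1
    have h3 : ((((χ k)⁻¹ : ℂˣ) : ℂ) - 1) * ∑ e : E, θ (φ e) * (((χ e)⁻¹ : ℂˣ) : ℂ) = 0 := by
      linear_combination -h1
    have h4 : ((((χ k)⁻¹ : ℂˣ) : ℂ) - 1) ≠ 0 := by
      intro h
      apply hχk
      have h5 : (((χ k)⁻¹ : ℂˣ) : ℂ) = ((1 : ℂˣ) : ℂ) := by rw [Units.val_one]; linear_combination h
      have h6 := Units.ext h5
      exact inv_eq_one.mp h6
    rw [(mul_eq_zero.mp h3).resolve_left h4]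
    push_cast
    ring

lemma EvenQ.comp {θ : G → ℂ} (hθ : EvenQ θ) {E : Type} [Group E] [Finite E] (φ : E →* G) :
    EvenQ (fun e => θ (φ e)) := by
  intro H ψ hψ
  have : Fintype H := Fintype.ofFinite H
  obtain ⟨k, hk⟩ := hθ.hom (φ.comp H.subtype) ψ hψ
  refine ⟨k, ?_⟩
  rw [finsum_eq_sum_of_fintype]
  exact hk

end even

section main

variable {α : Type} [Fintype α] [DecidableEq α] {θ : alternatingGroup α → ℂ}
variable {F : Type} [Field F] [Fintype F] [DecidableEq F] {m : ℕ}

/-- The degree bound forces all the block translations into the kernel (even multiplicities). -/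
theorem block_kernel_even (hθ : IsHeilbronn θ) (hev : EvenQ θ) (hF : 4 ≤ Fintype.card F)
    (h2F : ∀ a : F, a + a = 0)
    (hFe : Even (Fintype.card F)) (f : Fin m × F ↪ α) {r : ℕ} (hr : θ 1 = r)
    (hlt : r < 2 * ((Fintype.card F - 1) * m)) (a : Fin m → F) :
    θ (blockHom hF f (Multiplicative.ofAdd a)) = θ 1 := by
  classical
  set t : (Fin m → F) → ℂ := fun a => θ (blockHom hF f (Multiplicative.ofAdd a)) with ht
  -- additive character
  set e : AddChar F ℂ := AddChar.FiniteField.primitiveChar_to_Complex F with he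
  have heprim : e.IsPrimitive := AddChar.FiniteField.primitiveChar_to_Complex_isPrimitive F
  let χ : (Fin m → F) → Multiplicative (Fin m → F) →* ℂˣ := fun y =>
    MonoidHom.toHomUnits
      { toFun := fun a => e (∑ i, y i * Multiplicative.toAdd a i)
        map_one' := by simp
        map_mul' := fun a b => by
          rw [← AddChar.map_add_eq_mul, ← Finset.sum_add_distrib]
          congr 1
          refine Finset.sum_congr rfl fun i _ => ?_
          rw [toAdd_mul, Pi.add_apply, mul_add] }
  have hχ : ∀ y a, ((χ y (Multiplicative.ofAdd a) : ℂˣ) : ℂ) = e (∑ i, y i * a i) :=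
    fun y a => rfl
  have hsq : ∀ y a, χ y a * χ y a = 1 := by
    intro y a
    rw [← map_mul]
    have h3 : a * a = 1 := by
      apply Multiplicative.toAdd.injective
      rw [toAdd_mul, toAdd_one]
      funext i
      exact h2F _
    rw [h3, map_one]
  have hm := fun y => hev.hom (blockHom hF f) (χ y) (hsq y)
  choose n' hn0 using hm
  let n : (Fin m → F) → ℕ := fun y => 2 * n' y
  have hn : ∀ y, ∑ e : Multiplicative (Fin m → F), θ (blockHom hF f e) * (((χ y e)⁻¹ : ℂˣ) : ℂ)
      = (n y : ℂ) * (Nat.card (Multiplicative (Fin m → F)) : ℂ) := by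
    intro y
    rw [hn0 y]
    have h3 : (n y : ℂ) = 2 * (n' y : ℂ) := by
      change (((2 * n' y : ℕ)) : ℂ) = _
      push_cast
      ring
    rw [h3]
  have hcardV : (Nat.card (Multiplicative (Fin m → F)) : ℂ) = (Fintype.card F : ℂ) ^ m := by
    rw [Nat.card_eq_fintype_card, Fintype.card_multiplicative, Fintype.card_fun, Fintype.card_fin]
    push_cast; rfl
  have hn' : ∀ y, ∑ a : Fin m → F, t a * e (-∑ i, y i * a i) = n y * (Fintype.card F : ℂ) ^ m := by
    intro y
    rw [← hcardV, ← hn y, ← Multiplicative.ofAdd.sum_comp]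
    refine Finset.sum_congr rfl fun a _ => ?_
    rw [Units.val_inv_eq_inv_val, hχ, AddChar.map_neg_eq_inv]
  have hq : ((Fintype.card F : ℂ) ^ m) ≠ 0 := pow_ne_zero _ (by
    exact_mod_cast Fintype.card_ne_zero)
  -- invariance of n
  have hinv : ∀ y z : Fin m → F, wt y = wt z → n y = n z := by
    intro y z hyz
    obtain ⟨u, σ, huσ⟩ := exists_monomial hyz
    have h1 : ∑ a : Fin m → F, t a * e (-∑ i, y i * a i)
        = ∑ a : Fin m → F, t a * e (-∑ i, z i * a i) := by
      -- substitution a ↦ (i ↦ (u i)⁻¹ * a (σ i)) in the second sum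
      let T : (Fin m → F) ≃ (Fin m → F) :=
        { toFun := fun a i => ((u i)⁻¹ : Fˣ) * a (σ i)
          invFun := fun a i => (u (σ⁻¹ i) : F) * a (σ⁻¹ i)
          left_inv := fun a => by
            ext i
            simp only [perm_mul_inv_apply, Units.mul_inv_cancel_left]
          right_inv := fun a => by
            ext i
            simp only [perm_inv_mul_apply, Units.inv_mul_cancel_left] }
      rw [← T.sum_comp (fun a => t a * e (-∑ i, z i * a i))]
      refine Finset.sum_congr rfl fun a _ => ?_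
      have h2 : t (T a) = t a := blockHom_mono hθ hF hFe f u σ a
      have h3 : ∑ i, z i * (T a) i = ∑ i, y i * a i := by
        rw [← Equiv.sum_comp σ (fun i => y i * a i)]
        refine Finset.sum_congr rfl fun i _ => ?_
        change z i * (((u i)⁻¹ : Fˣ) * a (σ i)) = _
        rw [huσ i]
        have : (u i : F) * (((u i)⁻¹ : Fˣ) : F) = 1 := Units.mul_inv _
        calc (u i : F) * y (σ i) * ((((u i)⁻¹ : Fˣ) : F) * a (σ i))
            = ((u i : F) * (((u i)⁻¹ : Fˣ) : F)) * (y (σ i) * a (σ i)) := by ring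
          _ = y (σ i) * a (σ i) := by rw [this, one_mul]
      rw [h2, h3]
    rw [hn', hn'] at h1
    exact_mod_cast mul_right_cancel₀ hq h1
  -- total multiplicity
  have htot : ∑ y, n y = r := by
    have h1 : ∑ y : Fin m → F, ∑ a : Fin m → F, t a * e (-∑ i, y i * a i)
        = (∑ y, (n y : ℂ)) * (Fintype.card F : ℂ) ^ m := by
      rw [Finset.sum_congr rfl (fun y _ => hn' y), Finset.sum_mul]
    rw [Finset.sum_comm] at h1
    have h2 : ∀ a : Fin m → F, ∑ y : Fin m → F, t a * e (-∑ i, y i * a i)
        = if a = 0 then t 0 * (Fintype.card F : ℂ) ^ m else 0 := by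
      intro a
      rw [← Finset.mul_sum]
      have h3 : ∀ y : Fin m → F, e (-∑ i, y i * a i) = ∏ i, e (y i * (-a i)) := by
        intro y
        rw [← Finset.sum_neg_distrib]
        rw [addChar_sum]
        refine Finset.prod_congr rfl fun i _ => by rw [mul_neg]
      rw [Finset.sum_congr rfl (fun y _ => h3 y)]
      have h4 := Finset.prod_univ_sum (fun _ : Fin m => (Finset.univ : Finset F))
        (fun i x => e (x * (-a i)))
      rw [Fintype.piFinset_univ] at h4
      rw [← h4]
      by_cases ha : a = 0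
      · subst ha
        simp
      · rw [if_neg ha]
        obtain ⟨i, hi⟩ := Function.ne_iff.mp ha
        have h5 : ∑ x : F, e (x * (-a i)) = 0 := by
          rw [AddChar.sum_mulShift _ heprim, if_neg (by simpa using hi)]
          simp
        rw [Finset.prod_eq_zero (Finset.mem_univ i) h5, mul_zero]
    rw [Finset.sum_congr rfl (fun a _ => h2 a)] at h1
    simp only [Finset.sum_ite_eq', Finset.mem_univ, if_true] at h1
    have h6 := mul_right_cancel₀ hq h1
    have h7 : t 0 = r := by
      rw [← hr, ht]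
      simp only [ofAdd_zero, map_one]
    rw [h7] at h6
    exact_mod_cast h6.symm
  -- all nontrivial multiplicities vanish
  have hzero : ∀ y : Fin m → F, y ≠ 0 → n y = 0 := by
    intro y hy
    by_contra hcon
    have hwt1 : 1 ≤ wt y := by
      obtain ⟨i, hi⟩ := Function.ne_iff.mp hy
      rw [wt, Nat.one_le_iff_ne_zero, Finset.card_ne_zero]
      exact ⟨i, by simpa using hi⟩
    have hwtm : wt y ≤ m := by
      rw [wt]
      exact (Finset.card_filter_le _ _).trans (by simp)
    have h1 := card_wt_ge (F := F) (by omega) hwt1 hwtm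
    have h2 : (Finset.univ.filter fun z : Fin m → F => wt z = wt y).card * 2 ≤ ∑ z, n z := by
      calc (Finset.univ.filter fun z : Fin m → F => wt z = wt y).card * 2
          = ∑ z ∈ Finset.univ.filter (fun z : Fin m → F => wt z = wt y), 2 := by simp
        _ ≤ ∑ z ∈ Finset.univ.filter (fun z : Fin m → F => wt z = wt y), n z := by
            refine Finset.sum_le_sum fun z hz => ?_
            have h3 := hinv y z (Finset.mem_filter.mp hz).2.symm
            have h4 : n y = 2 * n' y := rfl
            have h5 : n z = 2 * n' z := rfl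
            omega
        _ ≤ ∑ z, n z := Finset.sum_le_sum_of_subset (Finset.filter_subset _ _)
    rw [htot] at h2
    omega
  -- conclusion
  have hn0 : (n 0 : ℂ) = r := by
    have : ∑ y, n y = n 0 := Finset.sum_eq_single 0 (fun y _ hy => hzero y hy) (by simp)
    rw [htot] at this
    exact_mod_cast this.symm
  have hsum := hn' 0
  simp only [Pi.zero_apply, zero_mul, Finset.sum_const_zero, neg_zero, AddChar.map_zero_eq_one,
    mul_one] at hsum
  rw [hn0] at hsum
  have hnn : ∀ b ∈ (Finset.univ : Finset (Fin m → F)), (0 : ℝ) ≤ r - (t b).re := by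
    intro b _
    have := (Complex.re_le_norm _).trans (hθ.norm_le (blockHom hF f (Multiplicative.ofAdd b)))
    rw [hr, Complex.natCast_re] at this
    simp only [ht]; linarith
  have hsum0 : ∑ b : Fin m → F, ((r : ℝ) - (t b).re) = 0 := by
    have h1 := congrArg Complex.re hsum
    rw [Complex.re_sum] at h1
    rw [Finset.sum_sub_distrib, h1, Finset.sum_const, Finset.card_univ, Fintype.card_fun,
      Fintype.card_fin, nsmul_eq_mul]
    have : ((r : ℂ) * (Fintype.card F : ℂ) ^ m).re = r * (Fintype.card F : ℝ) ^ m := by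
      have h8 : ((r : ℂ) * (Fintype.card F : ℂ) ^ m) = ((r * (Fintype.card F : ℝ) ^ m : ℝ) : ℂ) := by
        push_cast; rfl
      rw [h8, Complex.ofReal_re]
    rw [this]
    push_cast; ring
  have h5 := (Finset.sum_eq_zero_iff_of_nonneg hnn).mp hsum0 a (Finset.mem_univ _)
  apply hθ.eq_deg_of_re
  rw [hr, Complex.natCast_re]
  simp only [ht] at h5
  linarith

end main

theorem alt_core_even {n k : ℕ} (hn : 5 ≤ n) (hk : 2 ≤ k) {θ : alternatingGroup (Fin n) → ℂ}
    (hθ : IsHeilbronn θ) (hev : EvenQ θ) {r : ℕ} (hr : θ 1 = r)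
    (hlt : r < 2 * ((2 ^ k - 1) * (n / 2 ^ k)))
    (g : alternatingGroup (Fin n)) : θ g = θ 1 := by
  classical
  set m := n / 2 ^ k with hm
  have hmpos : 0 < m := by
    rcases Nat.eq_zero_or_pos m with h | h
    · rw [h, mul_zero] at hlt; omega
    · exact h
  have : NeZero m := ⟨hmpos.ne'⟩
  have : Fact (Nat.Prime 2) := ⟨Nat.prime_two⟩
  let F := GaloisField 2 k
  have : Fintype F := Fintype.ofFinite F
  have hcardF : Fintype.card F = 2 ^ k := by
    rw [← Nat.card_eq_fintype_card]; exact GaloisField.card 2 k (by omega)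
  have h4 : 4 ≤ Fintype.card F := by
    rw [hcardF]
    calc 4 = 2 ^ 2 := by norm_num
      _ ≤ 2 ^ k := Nat.pow_le_pow_right (by norm_num) hk
  have heven : Even (Fintype.card F) := by
    rw [hcardF]; exact (Nat.even_pow.mpr ⟨even_two, by omega⟩)
  have hemb : Nonempty (Fin m × F ↪ Fin n) := by
    apply Function.Embedding.nonempty_of_card_le
    rw [Fintype.card_prod, Fintype.card_fin, Fintype.card_fin, hcardF, hm]
    exact Nat.div_mul_le_self n (2 ^ k)
  obtain ⟨f⟩ := hemb
  have hblock := block_kernel_even (F := F) (m := m) hθ hev h4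
    (fun a => CharTwo.add_self_eq_zero a) heven f hr (by rw [hcardF]; exact hlt)
  -- the involution
  let a : Fin m → F := Pi.single 0 1
  set x : Perm (Fin n) := viaEmbeddingHom f (trans m F (Multiplicative.ofAdd a)) with hx
  have hxK : InK θ x := ⟨(blockHom h4 f (Multiplicative.ofAdd a)).2, hblock a⟩
  have hx2 : x * x = 1 := by
    rw [hx, ← map_mul, ← map_mul, ← ofAdd_add]
    have : a + a = 0 := by
      ext i
      simp only [Pi.add_apply, Pi.zero_apply]
      exact CharTwo.add_self_eq_zero _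
    rw [this, ofAdd_zero, map_one, map_one]
  have hx1 : x ≠ 1 := by
    intro h
    have h1 : trans m F (Multiplicative.ofAdd a) = 1 := by
      apply viaEmbeddingHom_injective f
      rw [map_one]; exact h
    have h2 := congrArg (fun π : Perm (Fin m × F) => π (0, 0)) h1
    simp [Pool.Agent.H302R2.trans, a] at h2
  have hD : HasDoubleSwaps θ := by
    intro a b c d hab hac had hbc hbd hcd
    exact hxK.double_swap hθ hx2 hx1 hab hac had hbc hbd hcd
  obtain ⟨h1, h2⟩ := InK.all hθ hD (by rw [Fintype.card_fin]; exact hn)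
    (g := (g : Perm (Fin n))) (mem_alternatingGroup.mp g.2)
  exact h2

end Pool.Agent.Q7.CV
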