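import Mathlib
import Pool.Agent.Q7.CV.Alt
import Pool.Agent.Q7.DB.Jor
import Pool.Agent.H541R3.ART.Sym

/-!
# The central point: symmetric and alternating groups
-/

set_option autoImplicit false
set_option linter.unusedSectionVars false

namespace Pool.Agent.Q7.CV

open Pool.Agent.H302R2 Equiv Equiv.Perm Pool.Agent.H541R3.ART Filter Topology Pool.Agent.W446.AS

theorem sym_core_even {n k : ℕ} (hn : 5 ≤ n) (hk : 2 ≤ k) (G : Subgroup (Perm (Fin n)))
    (hG : alternatingGroup (Fin n) ≤ G) {θ : G → ℂ} (hθ : IsHeilbronn θ) (hev : EvenQ θ) {r : ℕ}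
    (hr : θ 1 = r) (hlt : r < 2 * ((2 ^ k - 1) * (n / 2 ^ k))) :
    ∃ a b : ℕ, ∀ g : G, θ g = a + b * ((Perm.sign (g : Perm (Fin n)) : ℤ) : ℂ) := by
  classical
  have : Fintype G := Fintype.ofFinite G
  have heven : ∀ g : G, Perm.sign (g : Perm (Fin n)) = 1 → θ g = r := by
    intro g hg
    have h1 := alt_core_even hn hk (hθ.comp (Subgroup.inclusion hG)) (hev.comp (Subgroup.inclusion hG)) (r := r) (by simpa using hr) hlt
      ⟨(g : Perm (Fin n)), mem_alternatingGroup.mpr hg⟩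
    simp only [map_one] at h1
    rw [hr] at h1
    exact h1
  let χ : G →* ℤˣ := Perm.sign.comp G.subtype
  by_cases hodd : ∃ g₀ : G, χ g₀ = -1
  swap
  · push Not at hodd
    refine ⟨r, 0, fun g => ?_⟩
    rw [heven g ((Int.units_eq_one_or _).resolve_right (hodd g))]
    simp
  obtain ⟨g₀, hg₀⟩ := hodd
  have hoddc : ∀ g : G, χ g = -1 → θ g = θ g₀ := fun g hg =>
    index_two hθ χ (fun g hg => by rw [heven g hg, hr]) hg hg₀
  obtain ⟨a, ha⟩ := hθ.mult_hom (MonoidHom.id G) 1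
  obtain ⟨b, hb⟩ := hθ.mult_hom (MonoidHom.id G) (signToC.comp χ)
  simp only [MonoidHom.id_apply, MonoidHom.one_apply, inv_one, Units.val_one, mul_one] at ha
  have hsg : ∀ g : G, ((((signToC.comp χ) g)⁻¹ : ℂˣ) : ℂ) = ((χ g : ℤ) : ℂ) := by
    intro g
    rw [MonoidHom.comp_apply]
    rcases Int.units_eq_one_or (χ g) with h | h
    · rw [h]; simp
    · rw [h]; simp [signToC]
  simp only [MonoidHom.id_apply, hsg] at hb
  have hN : (Nat.card G : ℂ) ≠ 0 := by exact_mod_cast Nat.card_pos.ne'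
  have hsum0 : ∑ g : G, ((χ g : ℤ) : ℂ) = 0 := by
    have h1 : ∑ g : G, ((χ g : ℤ) : ℂ) = ∑ g : G, ((χ (g * g₀) : ℤ) : ℂ) :=
      (Equiv.sum_comp (Equiv.mulRight g₀) (fun g => ((χ g : ℤ) : ℂ))).symm
    have h2 : ∑ g : G, ((χ (g * g₀) : ℤ) : ℂ) = - ∑ g : G, ((χ g : ℤ) : ℂ) := by
      rw [← Finset.sum_neg_distrib]
      refine Finset.sum_congr rfl fun g _ => ?_
      rw [map_mul, hg₀]; simp
    rw [h2] at h1
    linear_combination h1 / 2
  have hab : (a : ℂ) + b = r := by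
    apply mul_right_cancel₀ hN
    rw [add_mul, ← ha, ← hb, ← Finset.sum_add_distrib]
    have : ∀ g : G, θ g + θ g * ((χ g : ℤ) : ℂ) = r + r * ((χ g : ℤ) : ℂ) := by
      intro g
      rcases Int.units_eq_one_or (χ g) with h | h
      · rw [heven g h]
      · rw [h]; simp
    rw [Finset.sum_congr rfl (fun g _ => this g), Finset.sum_add_distrib, ← Finset.mul_sum, hsum0,
      Finset.sum_const, Finset.card_univ, nsmul_eq_mul, Nat.card_eq_fintype_card]
    ring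
  have hab' : (a : ℂ) - b = θ g₀ := by
    apply mul_right_cancel₀ hN
    rw [sub_mul, ← ha, ← hb, ← Finset.sum_sub_distrib]
    have : ∀ g : G, θ g - θ g * ((χ g : ℤ) : ℂ) = θ g₀ - θ g₀ * ((χ g : ℤ) : ℂ) := by
      intro g
      rcases Int.units_eq_one_or (χ g) with h | h
      · rw [h]; simp
      · rw [hoddc g h]
    rw [Finset.sum_congr rfl (fun g _ => this g), Finset.sum_sub_distrib, ← Finset.mul_sum, hsum0,
      Finset.sum_const, Finset.card_univ, nsmul_eq_mul, Nat.card_eq_fintype_card]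
    ring
  refine ⟨a, b, fun g => ?_⟩
  rcases Int.units_eq_one_or (χ g) with h | h
  · rw [heven g h, ← hab]
    have : Perm.sign (g : Perm (Fin n)) = 1 := h
    rw [this]; simp
  · rw [hoddc g h, ← hab']
    have : Perm.sign (g : Perm (Fin n)) = -1 := h
    rw [this]; simp; ring


/-- Orders of L-functions of quadratic characters are even: so are the multiplicities. -/
lemma evenQ_ord {G : Type} [Group G] [Finite G] {s₀ : ℂ} (A : ArtinData G s₀)
    (h : ∀ (H : Subgroup G) (ψ : H →* ℂˣ), (∀ x, ψ x * ψ x = 1) →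
      ∃ m : ℕ, meromorphicOrderAt (A.Lin H ψ) s₀ = ((2 * m : ℕ) : WithTop ℤ)) :
    EvenQ (theta A.ord : G → ℂ) := by
  classical
  intro H ψ hψ
  obtain ⟨k, hk⟩ := h H ψ hψ
  choose! m hm using fun χ (hχ : χ ∈ Irr G) => exists_mult hχ H ψ
  have h1 := A.order_Lin H ψ m hm
  have h2 := theta_mult A.ord H ψ m hm
  rw [hk] at h1
  have h3 : (∑ χ ∈ irrF G, (m χ : ℤ) * A.ord χ : ℤ) = ((2 * k : ℕ) : ℤ) := by
    have : (((2 * k : ℕ) : ℤ) : WithTop ℤ)
        = ((∑ χ ∈ irrF G, (m χ : ℤ) * A.ord χ : ℤ) : WithTop ℤ) := by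
      rw [← h1]; rfl
    exact (WithTop.coe_injective this).symm
  rw [h3] at h2
  exact ⟨k, by rw [h2]; push_cast; ring⟩

theorem central_sym {n k : ℕ} (hn : 5 ≤ n) (hk : 2 ≤ k) (G : Subgroup (Perm (Fin n)))
    (hG : alternatingGroup (Fin n) ≤ G) {s₀ : ℂ} (A : ArtinData G s₀)
    (hev : ∀ (H : Subgroup G) (ψ : H →* ℂˣ), (∀ x, ψ x * ψ x = 1) →
      ∃ m : ℕ, meromorphicOrderAt (A.Lin H ψ) s₀ = ((2 * m : ℕ) : WithTop ℤ)) {r : ℕ}
    (hr : meromorphicOrderAt (A.Lin ⊥ 1) s₀ = (r : WithTop ℤ))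
    (hlt : r < 2 * ((2 ^ k - 1) * (n / 2 ^ k))) :
    (∀ χ ∈ Irr G, 0 ≤ meromorphicOrderAt (A.L χ) s₀) ∧
    (∀ χ ∈ Irr G, (∃ g : G, (g : Perm (Fin n)) ∈ alternatingGroup (Fin n) ∧ χ g ≠ χ 1) →
      meromorphicOrderAt (A.L χ) s₀ = 0) ∧
    ∀ U : Subgroup G,
      meromorphicOrderAt (A.Lin (U ⊔ (alternatingGroup (Fin n)).subgroupOf G) 1) s₀
        = meromorphicOrderAt (A.Lin U 1) s₀ := by
  classical
  have : Fintype G := Fintype.ofFinite G
  have hθ := A.isHeilbronn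
  have h1 := A.theta_one hr
  obtain ⟨a, b, hab⟩ := sym_core_even hn hk G hG hθ (evenQ_ord A hev) h1 hlt
  have hzero : ∀ χ ∈ Irr G, (∃ g : G, (g : Perm (Fin n)) ∈ alternatingGroup (Fin n) ∧ χ g ≠ χ 1) →
      meromorphicOrderAt (A.L χ) s₀ = 0 := by
    rintro χ hχ ⟨g, hg, hg1⟩
    have hN : ((alternatingGroup (Fin n)).subgroupOf G).Normal := inferInstance
    have h2 : ∀ m ∈ (alternatingGroup (Fin n)).subgroupOf G, ∀ x : G,
        (theta A.ord : G → ℂ) (m * x) = (theta A.ord : G → ℂ) x := by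
      intro m hm x
      rw [Subgroup.mem_subgroupOf, mem_alternatingGroup] at hm
      rw [hab, hab, Subgroup.coe_mul, map_mul, hm, one_mul]
    have h3 := pair_zero hχ ((alternatingGroup (Fin n)).subgroupOf G) h2
      (x := g) (by rw [Subgroup.mem_subgroupOf]; exact hg) hg1
    have h4 := A.order_eq hχ (k := 0) (by rw [h3]; simp)
    exact_mod_cast h4
  refine ⟨fun χ hχ => ?_, hzero, fun U => ?_⟩
  · let ε : G →* ℂˣ := (Units.map (Int.castRingHom ℂ : ℤ →* ℂ)).comp (Perm.sign.comp G.subtype)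
    have hε : ∀ g : G, ((ε g : ℂˣ) : ℂ) = ((Perm.sign (g : Perm (Fin n)) : ℤ) : ℂ) := fun g => rfl
    obtain ⟨m₁, hm₁⟩ := pair_lin hχ (1 : G →* ℂˣ)
    obtain ⟨m₂, hm₂⟩ := pair_lin hχ ε
    have h2 : ∑ g : G, (theta A.ord : G → ℂ) g * χ g⁻¹
        = (((a * m₁ + b * m₂ : ℕ) : ℤ) : ℂ) * Nat.card G := by
      have h3 : ∀ g : G, (theta A.ord : G → ℂ) g * χ g⁻¹
          = a * ((((1 : G →* ℂˣ) g : ℂˣ) : ℂ) * χ g⁻¹) + b * (((ε g : ℂˣ) : ℂ) * χ g⁻¹) := by
        intro g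
        rw [hab g, hε, MonoidHom.one_apply, Units.val_one]
        ring
      rw [Finset.sum_congr rfl (fun g _ => h3 g), Finset.sum_add_distrib, ← Finset.mul_sum,
        ← Finset.mul_sum, hm₁, hm₂]
      push_cast
      ring
    rw [A.order_eq hχ h2]
    exact_mod_cast Int.natCast_nonneg _
  · apply Pool.Agent.Q7.DB.order_sup A
    intro χ hχ hne
    obtain ⟨d, ρ, hρ, rfl⟩ := exists_rep hχ
    refine ⟨d, ρ, rfl, fun x hx => ?_⟩
    rw [Pool.Agent.Q7.DB.mem_kr]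
    apply Pool.Agent.Y788.V.rep_triv
    by_contra hcon
    apply hne
    have h4 := hzero _ hχ ⟨x, hx, hcon⟩
    rw [← A.coe_ord hχ] at h4
    exact_mod_cast h4

end Pool.Agent.Q7.CV
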